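import Mathlib
import Pool.Agent.helper46.Bounded

set_option autoImplicit false

open Matrix

namespace Pool.Agent.Results.MP_6bf2ef_co.BoundedDegree

/-- If every vertex of `G` has at most `D` neighbours and `G` has at least
`2 (D^2+D+2)^2 (D^2+D+1)` vertices, then the complement of `G` has a symmetric matrix with
at most two distinct eigenvalues. -/
theorem result : ∀ (n D : ℕ) (G : SimpleGraph (Fin n)),
    (∀ v : Fin n, (G.neighborSet v).ncard ≤ D) →
    2 * (D ^ 2 + D + 2) ^ 2 * (D ^ 2 + D + 1) ≤ n →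
    ∃ B : Matrix (Fin n) (Fin n) ℝ,
      B.IsSymm ∧ (∀ i j : Fin n, i ≠ j → (B i j ≠ 0 ↔ Gᶜ.Adj i j)) ∧
      (spectrum ℝ B).ncard ≤ 2 := by
  classical
  intro n D G hD hn
  obtain ⟨B, h1, h2, h3⟩ := Pool.Agent.helper46.two_eigenvalues_of_bounded_degree (G := G)
    (D := D) (by
      intro v
      have h := hD v
      have e : G.neighborSet v =
          ((Finset.univ.filter (fun w => G.Adj v w) : Finset (Fin n)) : Set (Fin n)) := by
        ext w; simp
      rw [e, Set.ncard_coe_finset] at h
      exact h)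
    (by
      rw [Fintype.card_fin]
      refine le_trans (le_of_eq ?_) hn
      ring)
  refine ⟨B, h1, h2, ?_⟩
  calc (spectrum ℝ B).ncard ≤ ({0, 1} : Set ℝ).ncard := Set.ncard_le_ncard h3 (by simp)
    _ ≤ 2 := (Set.ncard_insert_le _ _).trans (by simp)

end Pool.Agent.Results.MP_6bf2ef_co.BoundedDegree
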